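import Pool.Agent.TH91.RF.Final
import Pool.Agent.TH91.RF.Ex5

/-!
# Residual finiteness growth is determined by the complex Mal'cev completion
-/

set_option autoImplicit false

namespace Pool.Agent.Results.MP_67ef3c_al.RFComplexMalcev

open Pool.Agent.TH91.RF

/-- (0) Every finitely generated torsion-free nilpotent group has a rational Mal'cev completion
in exponential form.
(1) Finitely generated nilpotent groups with rational Mal'cev completions whose complexified Lie
algebras are isomorphic have equivalent residual finiteness growth.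
(2) In fact the growth is `(log n) ^ d`, where `d` is the least number such that the ideals of
codimension at most `d` of the complexified Mal'cev Lie algebra intersect trivially. -/
theorem result :
    (∀ (G : Type) [Group G] [Group.FG G] [Group.IsNilpotent G],
      (∀ x : G, ∀ n : ℕ, n ≠ 0 → x ^ n = 1 → x = 1) → Nonempty (MalcevCompletion G)) ∧
    (∀ (G₁ G₂ : Type) [Group G₁] [Group G₂] [Group.IsNilpotent G₁] [Group.IsNilpotent G₂]
      (c₁ : MalcevCompletion G₁) (c₂ : MalcevCompletion G₂),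
      Nonempty (c₁.CLie ≃ₗ⁅ℂ⁆ c₂.CLie) →
      ∀ (S₁ : Set G₁) (S₂ : Set G₂), S₁.Finite → S₂.Finite → Subgroup.closure S₁ = ⊤ →
        Subgroup.closure S₂ = ⊤ → GrowthEquiv (rfGrowth S₁) (rfGrowth S₂)) ∧
    (∀ (G : Type) [Group G] [Group.IsNilpotent G] [Nontrivial G] (c : MalcevCompletion G)
      (S : Set G), S.Finite → Subgroup.closure S = ⊤ →
      ∃ C : ℕ, 0 < C ∧ ∀ n : ℕ, 1 ≤ n →
        (rfGrowth S n : ℝ) ≤ C * (Real.log n + 1) ^ (sepDim ℂ c.CLie) ∧
        (Real.log n + 1) ^ (sepDim ℂ c.CLie) ≤ C * (rfGrowth S (C * n) : ℝ)) := by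
  refine ⟨?_, ?_, ?_⟩
  · intro G _ _ _ htf
    exact exists_completion G htf
  · rintro G₁ G₂ _ _ _ _ c₁ c₂ ⟨φ⟩ S₁ S₂ hS₁ hS₂ hg₁ hg₂
    exact growthEquiv_of_equiv c₁ c₂ φ S₁ S₂ hS₁ hS₂ hg₁ hg₂
  · intro G _ _ _ c S hS hg
    exact (growth c S hS hg).2

end Pool.Agent.Results.MP_67ef3c_al.RFComplexMalcev
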